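import Pool.Agent.P.MP_e3b298_an.H20Main

set_option autoImplicit false

namespace Pool.Agent.Results.MP_e3b298_an.ClassTAlpha

open Pool.Agent.H20Rob Finset

/-- Exact range of membership of the polynomials `P_n^β` in the two-parameter classes `T(α,γ)`. -/
theorem result (n : ℕ) (hn : 1 ≤ n) (β α γ : ℝ) (hβ : -(n : ℝ) < β) (hα : 1 ≤ α) (hγ : 0 ≤ γ) :
    List.TFAE [InT n β α γ, InTAll n β α γ, ∀ s : ℝ, β - γ < s → 0 < kraw n α s] :=
  main n hn β α γ hβ hα hγ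

/-- Sanity check: the criterion is a threshold as soon as `K` changes sign last at `σ`. -/
theorem threshold (n : ℕ) (hn : 1 ≤ n) (β α γ σ : ℝ) (hβ : -(n : ℝ) < β) (hα : 1 ≤ α)
    (hγ : 0 ≤ γ) (h0 : kraw n α σ = 0) (h1 : ∀ s, σ < s → 0 < kraw n α s) :
    InT n β α γ ↔ σ ≤ β - γ := by
  refine ((result n hn β α γ hβ hα hγ).out 0 2).trans ⟨fun h => ?_, fun h s hs => ?_⟩
  · by_contra hc
    exact (h σ (not_le.1 hc)).ne' h0
  · exact h1 s (h.trans_lt hs)

theorem kraw_small (n : ℕ) (hn : 1 ≤ n) (α s : ℝ) (hs : 0 ≤ s)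
    (h : ∀ k, Ring.choose α (k + 1 + 1 + 1) = 0) : ∃ c : ℝ, 0 < c ∧ kraw n α s =
      c * ((s + n) * (s + n + 1) - α * n * (s + n + 1) + α * (α - 1) / 2 * n * (n - 1)) := by
  have hn0 : (0 : ℝ) < n := by exact_mod_cast hn
  have hs0 : 0 < s + n := by linarith
  refine ⟨Ring.choose (2 * (n : ℝ) + s - 1) n / ((s + n) * (s + n + 1)),
    div_pos (choose_pos' _ n (by linarith)) (by positivity), ?_⟩
  have h2 : Ring.choose α (0 + 1 + 1) = α * (α - 1) / 2 := by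
    have := choose_succ_mul α (0 + 1)
    simp only [zero_add, Ring.choose_one_right, Nat.cast_one] at this ⊢
    linarith
  rw [kraw_eq n α s hs0, qq]
  rcases Nat.lt_or_ge n 2 with h3 | h3
  · obtain rfl : n = 1 := by omega
    simp [sum_range_succ, rc_succ, rc_zero]
    field_simp
    ring
  · obtain ⟨m, hm⟩ : ∃ m, n + 1 = m + 1 + 1 + 1 := ⟨n - 2, by omega⟩
    rw [hm, sum_range_succ', sum_range_succ', sum_range_succ', h2]
    simp only [h, rc_succ n s (0 + 1), rc_succ n s 0, rc_zero]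
    simp [Nat.cast_sub hn]
    field_simp
    ring

/-- Sanity check, `α = 1`: the threshold is `0` (for `γ = β ≥ 1` this is the known case). -/
theorem alpha_one (n : ℕ) (hn : 1 ≤ n) (β γ : ℝ) (hβ : -(n : ℝ) < β) (hγ : 0 ≤ γ) :
    InT n β 1 γ ↔ 0 ≤ β - γ := by
  have hz : ∀ k, Ring.choose (1 : ℝ) (k + 1 + 1 + 1) = 0 := fun k => choose_one_add_two (k + 1)
  apply threshold n hn β 1 γ 0 hβ le_rfl hγ
  · obtain ⟨c, -, h⟩ := kraw_small n hn 1 0 le_rfl hz
    rw [h]; ring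
  · intro s hs
    obtain ⟨c, hc, h⟩ := kraw_small n hn 1 s hs.le hz
    have : 0 < s * (s + n + 1) := by positivity
    rw [h]; apply mul_pos hc; nlinarith

/-- Sanity check, `α = 2`: the threshold is `(√(8n+1) - 1)/2`. -/
theorem alpha_two (n : ℕ) (hn : 1 ≤ n) (β γ : ℝ) (hβ : -(n : ℝ) < β) (hγ : 0 ≤ γ) :
    InT n β 2 γ ↔ (√(8 * n + 1) - 1) / 2 ≤ β - γ := by
  have hz : ∀ k, Ring.choose (2 : ℝ) (k + 1 + 1 + 1) = 0 := by
    intro k
    have := Ring.choose_natCast (R := ℝ) 2 (k + 1 + 1 + 1)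
    rw [Nat.choose_eq_zero_of_lt (by omega)] at this
    simpa using this
  have hn0 : (0 : ℝ) ≤ n := Nat.cast_nonneg n
  have h1 : √(8 * n + 1) ^ 2 = 8 * (n : ℝ) + 1 := Real.sq_sqrt (by linarith)
  have h2 : 1 ≤ √(8 * (n : ℝ) + 1) := Real.one_le_sqrt.2 (by linarith)
  apply threshold n hn β 2 γ _ hβ one_le_two hγ
  · obtain ⟨c, -, h⟩ := kraw_small n hn 2 ((√(8 * n + 1) - 1) / 2) (by linarith) hz
    rw [h]
    linear_combination c / 4 * h1
  · intro s hs
    obtain ⟨c, hc, h⟩ := kraw_small n hn 2 s (by linarith) hz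
    rw [h]; apply mul_pos hc; nlinarith

end Pool.Agent.Results.MP_e3b298_an.ClassTAlpha
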