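import Pool.Agent.P.MP_e3b298_an.Disc

set_option autoImplicit false

namespace Pool.Agent.Results.MP_e3b298_an.ExactRange

open Pool.Agent.P.MP_e3b298_an

/-- Exact parameter range for the Hadamard product of the Robinson polynomial of degree n and
parameter β with the kernel (1 + x z) (1 - z)^(-γ), written as its finite coefficient sum. -/
theorem result :
    ∀ n : ℕ, 1 ≤ n → ∀ β γ ρ : ℝ, 0 < β + (n : ℝ) → 0 ≤ γ → 1 ≤ ρ →
      ∀ X : Set ℂ, (ρ : ℂ) ∈ X → (∀ x ∈ X, ‖x‖ ≤ ρ) →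
      ((∀ x ∈ X, ∀ z : ℂ, ‖z‖ < 1 →
        (∑ k ∈ Finset.range (n + 1),
          (((n.descFactorial k : ℝ) / (ascPochhammer ℝ k).eval (β + (n : ℝ)) : ℝ) : ℂ) *
          ((((ascPochhammer ℝ k).eval γ / (k.factorial : ℝ)) : ℝ) : ℂ) * z ^ k)
        + x * (∑ k ∈ Finset.range n,
          (((n.descFactorial (k + 1) : ℝ) / (ascPochhammer ℝ (k + 1)).eval (β + (n : ℝ)) : ℝ) : ℂ) *
          ((((ascPochhammer ℝ k).eval γ / (k.factorial : ℝ)) : ℝ) : ℂ) * z ^ (k + 1)) ≠ 0) ↔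
      (n : ℝ) * (ρ - 1) ≤ β - γ) := by
  intro n hn β γ ρ hc hg hr X hX hXr
  obtain ⟨m, rfl⟩ : ∃ m, n = m + 1 := ⟨n - 1, by omega⟩
  simp only [sum_eq m γ hc]
  push_cast at hc ⊢
  constructor
  · intro h
    by_contra hlt
    obtain ⟨z, hz, h0⟩ := nec m (g := γ) hc hr (by nlinarith [not_le.1 hlt])
    exact h _ hX z hz h0
  · intro h x hx z hz
    exact suff m hg hr (by nlinarith) x z (hXr x hx) hz

end Pool.Agent.Results.MP_e3b298_an.ExactRange
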